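import Pool.Agent.X220.LP.Basic

/-!
# Diagonalizability of the third Askey-Wilson element does not imply a Leonard triple

Question Q2 is whether, for a Leonard pair `A`, `A*` and a map `A^ε` with the properties (i)-(iv), `A^ε` is
diagonalizable if and only if `A`, `A*`, `A^ε` is a Leonard triple.  The answer is no.  In dimension three,
by the polarization of the theorem of Cayley and Hamilton, any two linear maps satisfy the Askey-Wilson
relations (with `β = -1`), and `A^ε = A - A*` has the properties (i)-(iv) for every Leonard pair.  We give a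
rational Leonard pair for which `A - A*` is diagonalizable, with the eigenvalues `-2, -1, 1`, but the matrix
of `A` in an eigenbasis of `A - A*` is not tridiagonal for any order of the basis.
-/

set_option autoImplicit false

namespace Pool.Agent.Results.MP_b3a6b1_al.DiagonalizableThird

open Pool.Agent.X220.LP

section defs

variable {K : Type} [Field K] {V : Type} [AddCommGroup V] [Module K V]

/-- Leonard triples on a space of dimension `d + 1`. -/
def LeonardTriple (d : ℕ) (A B E : Module.End K V) : Prop :=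
  (∃ v : Module.Basis (Fin (d + 1)) K V, (LinearMap.toMatrix v v A).IsDiag ∧
    IrredTridiagonal (LinearMap.toMatrix v v B) ∧ IrredTridiagonal (LinearMap.toMatrix v v E)) ∧
  (∃ v : Module.Basis (Fin (d + 1)) K V, (LinearMap.toMatrix v v B).IsDiag ∧
    IrredTridiagonal (LinearMap.toMatrix v v A) ∧ IrredTridiagonal (LinearMap.toMatrix v v E)) ∧
  (∃ v : Module.Basis (Fin (d + 1)) K V, (LinearMap.toMatrix v v E).IsDiag ∧
    IrredTridiagonal (LinearMap.toMatrix v v A) ∧ IrredTridiagonal (LinearMap.toMatrix v v B))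

/-- The pair `B`, `C` satisfies the Askey-Wilson relations. -/
def AskeyWilson (B C : Module.End K V) : Prop :=
  ∃ β γ γ' ρ ρ' ω η η' : K,
    B * B * C - β • (B * C * B) + C * B * B - γ • (B * C + C * B) - ρ • C =
      γ' • (B * B) + ω • B + η • (1 : Module.End K V) ∧
    C * C * B - β • (C * B * C) + B * C * C - γ' • (C * B + B * C) - ρ' • B =
      γ • (C * C) + ω • C + η' • (1 : Module.End K V)

/-- `E = A^ε` has the properties (i)-(iv) for `A` and `B = A*`. -/
structure IsThird (A B E : Module.End K V) : Prop where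
  i : E ∈ Submodule.span K {1, A, B, A * B, B * A}
  ii : A ∈ Submodule.span K {1, B, E, B * E, E * B}
  iii : B ∈ Submodule.span K {1, E, A, E * A, A * E}
  iv₁ : AskeyWilson A B
  iv₂ : AskeyWilson B E
  iv₃ : AskeyWilson E A

/-- `E` is diagonalizable: its matrix in some basis is diagonal. -/
def Diagonalizable (d : ℕ) (E : Module.End K V) : Prop :=
  ∃ v : Module.Basis (Fin (d + 1)) K V, (LinearMap.toMatrix v v E).IsDiag

end defs

/-- The question Q2. -/
def Question : Prop :=
  ∀ (K : Type) [Field K] (V : Type) [AddCommGroup V] [Module K V] (d : ℕ)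
    (A B E : Module.End K V), LeonardPair d A B → IsThird A B E →
    (Diagonalizable d E ↔ LeonardTriple d A B E)

/-- 3 × 3 rational matrices -/
abbrev M3 : Type := Matrix (Fin 3) (Fin 3) ℚ

def mA : M3 := !![-1, 6, 0; 1, 2, -4; 0, 1, 0]
def mB : M3 := !![0, 0, 0; 0, 2, 0; 0, 0, 1]
def mE : M3 := !![-1, 6, 0; 1, 0, -4; 0, 1, -1]

/-- the map of a matrix -/
noncomputable abbrev φ : M3 ≃ₐ[ℚ] Module.End ℚ (Fin 3 → ℚ) := Matrix.toLinAlgEquiv'

theorem pA1 : (!![3, 12, 4; 1, -2, 2; 1, 1, 1] : M3) *
    !![-1/3, -2/3, 8/3; 1/12, -1/12, -1/6; 1/4, 3/4, -3/2] = 1 := by decide +kernel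

theorem pA2 : (!![-1/3, -2/3, 8/3; 1/12, -1/12, -1/6; 1/4, 3/4, -3/2] : M3) *
    !![3, 12, 4; 1, -2, 2; 1, 1, 1] = 1 := by decide +kernel

/-- diagonal matrices of order three -/
theorem diag3 {M : M3} (h : M 0 1 = 0 ∧ M 0 2 = 0 ∧ M 1 0 = 0 ∧ M 1 2 = 0 ∧ M 2 0 = 0 ∧ M 2 1 = 0) :
    M.IsDiag := by
  intro i j hij
  obtain ⟨h1, h2, h3, h4, h5, h6⟩ := h
  fin_cases i <;> fin_cases j <;> first | exact absurd rfl hij | assumption

/-- irreducible tridiagonal matrices of order three -/
theorem tri3 {M : M3} (h : M 0 2 = 0 ∧ M 2 0 = 0 ∧ M 0 1 ≠ 0 ∧ M 1 0 ≠ 0 ∧ M 1 2 ≠ 0 ∧ M 2 1 ≠ 0) :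
    IrredTridiagonal M := by
  obtain ⟨h1, h2, h3, h4, h5, h6⟩ := h
  constructor
  · intro i j hij
    fin_cases i <;> fin_cases j <;> first | assumption | (exfalso; simp at hij)
  · intro i j hij
    fin_cases i <;> fin_cases j <;> first | assumption | (exfalso; simp at hij)

theorem one1 : (1 : M3) * 1 = 1 := by decide +kernel

theorem pair : LeonardPair 2 (φ mA) (φ mB) := by
  refine ⟨⟨colBasis _ _ pA1 pA2, ?_, ?_⟩, ⟨colBasis _ _ one1 one1, ?_, ?_⟩⟩
  · refine (congrArg Matrix.IsDiag (toMatrix_colBasis _ _ _ _ mA)).mpr (diag3 ?_)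
    decide +kernel
  · refine (congrArg IrredTridiagonal (toMatrix_colBasis _ _ _ _ mB)).mpr (tri3 ?_)
    decide +kernel
  · refine (congrArg Matrix.IsDiag (toMatrix_colBasis _ _ _ _ mB)).mpr (diag3 ?_)
    decide +kernel
  · refine (congrArg IrredTridiagonal (toMatrix_colBasis _ _ _ _ mA)).mpr (tri3 ?_)
    decide +kernel

theorem aw_of {B C : M3} {β γ γ' ρ ρ' ω η η' : ℚ}
    (h : B * B * C - β • (B * C * B) + C * B * B - γ • (B * C + C * B) - ρ • C =
      γ' • (B * B) + ω • B + η • (1 : M3) ∧
    C * C * B - β • (C * B * C) + B * C * C - γ' • (C * B + B * C) - ρ' • B =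
      γ • (C * C) + ω • C + η' • (1 : M3)) : AskeyWilson (φ B) (φ C) := by
  refine ⟨β, γ, γ', ρ, ρ', ω, η, η', ?_, ?_⟩
  · have := congrArg φ h.1
    simpa only [map_add, map_sub, map_smul, map_mul, map_one] using this
  · have := congrArg φ h.2
    simpa only [map_add, map_sub, map_smul, map_mul, map_one] using this

theorem E_eq : mE = mA - mB := by decide +kernel

theorem E_eq' : φ mE = φ mA - φ mB := by rw [E_eq, map_sub]

theorem third : IsThird (φ mA) (φ mB) (φ mE) := by
  refine ⟨?_, ?_, ?_, ?_, ?_, ?_⟩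
  · rw [E_eq']
    exact Submodule.sub_mem _ (Submodule.subset_span (by simp)) (Submodule.subset_span (by simp))
  · have : φ mA = φ mE + φ mB := by rw [E_eq']; abel
    rw [this]
    exact Submodule.add_mem _ (Submodule.subset_span (by simp)) (Submodule.subset_span (by simp))
  · have : φ mB = φ mA - φ mE := by rw [E_eq']; abel
    rw [this]
    exact Submodule.sub_mem _ (Submodule.subset_span (by simp)) (Submodule.subset_span (by simp))
  · exact aw_of (β := -1) (γ := 1) (γ' := 3) (ρ := 4) (ρ' := -2) (ω := 1) (η := -8) (η' := -2)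
      (by decide +kernel)
  · exact aw_of (β := -1) (γ := 3) (γ' := -2) (ρ := -2) (ρ' := 1) (ω := 5) (η := -2) (η' := -4)
      (by decide +kernel)
  · exact aw_of (β := -1) (γ := -2) (γ' := 1) (ρ := 1) (ρ' := 4) (ω := 7) (η := 2) (η' := -4)
      (by decide +kernel)

/-- `E` is diagonalizable, with eigenvalues `-2, -1, 1` -/
theorem diag : Diagonalizable 2 (φ mE) := by
  refine ⟨colBasis (!![6, 4, 6; -1, 0, 2; 1, 1, 1] : M3)
    !![1/3, -1/3, -4/3; -1/2, 0, 3; 1/6, 1/3, -2/3] (by decide +kernel) (by decide +kernel), ?_⟩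
  refine (congrArg Matrix.IsDiag (toMatrix_colBasis _ _ _ _ mE)).mpr (diag3 ?_)
  decide +kernel

/-- the operator that vanishes if `A` is tridiagonal in the eigenbasis of `E` with eigenvalues
`x, y, z` -/
def opT (A E : M3) (x y z : ℚ) : M3 :=
  (E - y • 1) * (E - z • 1) * A * (E - x • 1) * (E - y • 1)

theorem not_triple : ¬ LeonardTriple 2 (φ mA) (φ mB) (φ mE) := by
  rintro ⟨⟨w, -, -, hw⟩, -, ⟨v, hv, hvA, -⟩⟩
  have hinj := eigen_distinct v w hv hw
  have hE := diag_apply v hv
  set μ : Fin 3 → ℚ := fun i => LinearMap.toMatrix v v (φ mE) i i with hμ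
  have hE' : ∀ i, φ mE (v i) = μ i • v i := hE
  -- the eigenvalues
  have hroot : ∀ i, μ i = -2 ∨ μ i = -1 ∨ μ i = 1 := by
    intro i
    have hch : (mE + (2 : ℚ) • 1) * ((mE + (1 : ℚ) • 1) * (mE - (1 : ℚ) • 1)) = 0 := by decide +kernel
    have h1 := congrArg (fun M => φ M (v i)) hch
    simp only [map_mul, map_add, map_sub, map_smul, map_one, map_zero, Module.End.mul_apply,
      LinearMap.add_apply, LinearMap.sub_apply, LinearMap.smul_apply, Module.End.one_apply, hE',
      LinearMap.zero_apply] at h1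
    have h2 : ((μ i + 2) * ((μ i + 1) * (μ i - 1))) • v i = 0 := by
      rw [← h1]
      module
    rcases smul_eq_zero.1 h2 with h3 | h3
    · rcases mul_eq_zero.1 h3 with h4 | h4
      · left; linarith
      · rcases mul_eq_zero.1 h4 with h5 | h5
        · right; left; linarith
        · right; right; linarith
    · exact absurd h3 (v.ne_zero i)
  -- the operator vanishes
  have hA2 : φ mA (v 2) = LinearMap.toMatrix v v (φ mA) 1 2 • v 1 +
      LinearMap.toMatrix v v (φ mA) 2 2 • v 2 := by
    have h1 := v.sum_repr (φ mA (v 2))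
    rw [Fin.sum_univ_three, ← LinearMap.toMatrix_apply, ← LinearMap.toMatrix_apply,
      ← LinearMap.toMatrix_apply, hvA.1 0 2 (Or.inl (by decide)), zero_smul, zero_add] at h1
    exact h1.symm
  have hT : opT mA mE (μ 0) (μ 1) (μ 2) = 0 := by
    apply φ.injective
    rw [map_zero]
    apply v.ext
    intro k
    unfold opT
    simp only [map_mul, map_sub, map_smul, map_one, Module.End.mul_apply,
      LinearMap.sub_apply, LinearMap.smul_apply, Module.End.one_apply, LinearMap.zero_apply, hE']
    have hk : k = 0 ∨ k = 1 ∨ k = 2 := by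
      have : ∀ k : Fin 3, k = 0 ∨ k = 1 ∨ k = 2 := by decide
      exact this k
    rcases hk with rfl | rfl | rfl
    · module
    · module
    · simp only [map_sub, map_add, map_smul, hE', hA2]
      module
  have hc : ∀ x y z : ℚ, (x = -2 ∨ x = -1 ∨ x = 1) → (y = -2 ∨ y = -1 ∨ y = 1) →
      (z = -2 ∨ z = -1 ∨ z = 1) → x ≠ y → y ≠ z → x ≠ z → opT mA mE x y z ≠ 0 := by
    intro x y z hx hy hz hxy hyz hxz
    rcases hx with rfl | rfl | rfl <;> rcases hy with rfl | rfl | rfl <;>
      rcases hz with rfl | rfl | rfl <;>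
      (first | exact absurd rfl hxy | exact absurd rfl hyz | exact absurd rfl hxz | decide +kernel)
  exact hc _ _ _ (hroot 0) (hroot 1) (hroot 2) (fun h => absurd (hinj h) (by decide))
    (fun h => absurd (hinj h) (by decide)) (fun h => absurd (hinj h) (by decide)) hT

/-- **The answer to Q2 is no.** -/
theorem result : ¬ Question := fun h =>
  not_triple ((h ℚ (Fin 3 → ℚ) 2 _ _ _ pair third).1 diag)

end Pool.Agent.Results.MP_b3a6b1_al.DiagonalizableThird
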